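import Pool.Agent.Q322.SPM.Gad

/-!
# From cliques to systems of chains
-/

namespace Pool.Agent.Q322.SPM

open Pool.Agent.NPC Pool.Agent.H633R2

/-- index of a chain of the first layer -/
def c1 (k i j q : ℕ) : ℕ := (i * k + j) * 4 + q

/-- index of a chain of the second layer -/
def c2 (k i q : ℕ) : ℕ := 4 * (k * k) + (i * 2 + q)

theorem c1_lt {k i j q : ℕ} (hi : i < k) (hj : j < k) (hq : q < 4) : c1 k i j q < 4 * (k * k) := by
  unfold c1
  have : (i + 1) * k ≤ k * k := Nat.mul_le_mul_right _ hi
  nlinarith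

theorem c1_dec {k i j q : ℕ} (hj : j < k) (hq : q < 4) :
    c1 k i j q % 4 = q ∧ c1 k i j q / 4 % k = j ∧ c1 k i j q / 4 / k = i := by
  have h1 : c1 k i j q / 4 = i * k + j := by unfold c1; omega
  refine ⟨by unfold c1; omega, ?_, ?_⟩
  · rw [h1, Nat.mul_comm, Nat.mul_add_mod, Nat.mod_eq_of_lt hj]
  · rw [h1, Nat.mul_comm, Nat.mul_add_div (by omega), Nat.div_eq_of_lt hj, Nat.add_zero]

theorem c2_dec {k i q : ℕ} (hq : q < 2) :
    (c2 k i q - 4 * (k * k)) % 2 = q ∧ (c2 k i q - 4 * (k * k)) / 2 = i := by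
  unfold c2
  constructor <;> omega

/-- allowed positions -/
def alw (M : List (List Bool)) (k c a : ℕ) : Bool :=
  if c < 4 * (k * k) then
    (if c / 4 / k = c / 4 % k then decide (a / M.length = a % M.length) else
      adjB M (a / M.length) (a % M.length))
  else decide (a / M.length = a % M.length)

/-- the cost of an allowed position -/
def gv (M : List (List Bool)) (k c a : ℕ) : ℕ :=
  if c < 4 * (k * k) then
    (if c % 4 = 0 then M.length + 2 - a / M.length else if c % 4 = 1 then a / M.length else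
      if c % 4 = 2 then M.length + 2 - a % M.length else a % M.length)
  else (if (c - 4 * (k * k)) % 2 = 0 then a / M.length else M.length + 2 - a / M.length)

/-- the cost -/
def fv (M : List (List Bool)) (k c a : ℕ) : ℕ :=
  if alw M k c a then M.length + 3 + gv M k c a else 1

/-- chains with the same position -/
def eqs (k : ℕ) : List (ℕ × ℕ) :=
  ((List.range k).flatMap fun i => (List.range k).flatMap fun j =>
    [(c1 k i j 0, c1 k i j 1), (c1 k i j 1, c1 k i j 2), (c1 k i j 2, c1 k i j 3)]) ++
  (List.range k).map fun i => (c2 k i 0, c2 k i 1)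

/-- linked chains -/
def lks (k : ℕ) : List (ℕ × ℕ) :=
  (List.range k).flatMap fun i => (List.range k).flatMap fun j =>
    [(c1 k i j 0, c2 k i 0), (c1 k i j 1, c2 k i 1), (c1 k i j 2, c2 k j 0),
      (c1 k i j 3, c2 k j 1)]

/-- the system of chains of the clique problem -/
def sys (M : List (List Bool)) (k : ℕ) : Sys where
  K := 4 * (k * k) + 2 * k
  P := M.length * M.length
  N := M.length + 2
  lay c := decide (4 * (k * k) ≤ c)
  f := fv M k
  eq := eqs k
  lk := lks k

theorem mem_eqs {k : ℕ} {p : ℕ × ℕ} : p ∈ eqs k ↔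
    (∃ i < k, ∃ j < k, p = (c1 k i j 0, c1 k i j 1) ∨ p = (c1 k i j 1, c1 k i j 2) ∨
      p = (c1 k i j 2, c1 k i j 3)) ∨ ∃ i < k, p = (c2 k i 0, c2 k i 1) := by
  unfold eqs
  simp only [List.mem_append, List.mem_flatMap, List.mem_range, List.mem_cons, List.not_mem_nil,
    or_false, List.mem_map, eq_comm]

theorem mem_lks {k : ℕ} {p : ℕ × ℕ} : p ∈ lks k ↔
    ∃ i < k, ∃ j < k, p = (c1 k i j 0, c2 k i 0) ∨ p = (c1 k i j 1, c2 k i 1) ∨
      p = (c1 k i j 2, c2 k j 0) ∨ p = (c1 k i j 3, c2 k j 1) := by
  unfold lks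
  simp only [List.mem_flatMap, List.mem_range, List.mem_cons, List.not_mem_nil,
    or_false]

theorem sys_ok (M : List (List Bool)) (k : ℕ) : (sys M k).OK where
  hN := by change 2 ≤ M.length + 2; omega
  hf := by
    intro c a
    change 1 ≤ fv M k c a
    unfold fv
    split_ifs <;> omega
  heq := by
    intro p hp
    change p ∈ eqs k at hp
    change p.1 < 4 * (k * k) + 2 * k ∧ p.2 < 4 * (k * k) + 2 * k ∧
      decide (4 * (k * k) ≤ p.1) = decide (4 * (k * k) ≤ p.2)
    rw [mem_eqs] at hp
    rcases hp with ⟨i, hi, j, hj, rfl | rfl | rfl⟩ | ⟨i, hi, rfl⟩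
    · have h1 := c1_lt hi hj (show 0 < 4 by omega)
      have h2 := c1_lt hi hj (show 1 < 4 by omega)
      refine ⟨by simp only; omega, by simp only; omega, ?_⟩
      rw [decide_eq_decide]
      simp only
      omega
    · have h1 := c1_lt hi hj (show 1 < 4 by omega)
      have h2 := c1_lt hi hj (show 2 < 4 by omega)
      refine ⟨by simp only; omega, by simp only; omega, ?_⟩
      rw [decide_eq_decide]
      simp only
      omega
    · have h1 := c1_lt hi hj (show 2 < 4 by omega)
      have h2 := c1_lt hi hj (show 3 < 4 by omega)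
      refine ⟨by simp only; omega, by simp only; omega, ?_⟩
      rw [decide_eq_decide]
      simp only
      omega
    · unfold c2
      refine ⟨by simp only; omega, by simp only; omega, ?_⟩
      rw [decide_eq_decide]
      simp only
      omega
  hlk := by
    intro p hp
    change p ∈ lks k at hp
    change p.1 < 4 * (k * k) + 2 * k ∧ p.2 < 4 * (k * k) + 2 * k ∧
      decide (4 * (k * k) ≤ p.1) = false ∧ decide (4 * (k * k) ≤ p.2) = true
    rw [decide_eq_false_iff_not, decide_eq_true_iff]
    rw [mem_lks] at hp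
    obtain ⟨i, hi, j, hj, rfl | rfl | rfl | rfl⟩ := hp
    · have h1 := c1_lt hi hj (show 0 < 4 by omega)
      unfold c2
      simp only
      omega
    · have h1 := c1_lt hi hj (show 1 < 4 by omega)
      unfold c2
      simp only
      omega
    · have h1 := c1_lt hi hj (show 2 < 4 by omega)
      unfold c2
      simp only
      omega
    · have h1 := c1_lt hi hj (show 3 < 4 by omega)
      unfold c2
      simp only
      omega

theorem fv_c1 (M : List (List Bool)) {k i j q a : ℕ} (hi : i < k) (hj : j < k) (hq : q < 4) :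
    fv M k (c1 k i j q) a = if (if i = j then decide (a / M.length = a % M.length) else
        adjB M (a / M.length) (a % M.length)) then M.length + 3 +
      (if q = 0 then M.length + 2 - a / M.length else if q = 1 then a / M.length else
        if q = 2 then M.length + 2 - a % M.length else a % M.length) else 1 := by
  obtain ⟨h1, h2, h3⟩ := c1_dec (i := i) hj hq
  unfold fv alw gv
  rw [if_pos (c1_lt hi hj hq), if_pos (c1_lt hi hj hq), h1, h2, h3]

theorem fv_c2 (M : List (List Bool)) {k i q a : ℕ} (hq : q < 2) :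
    fv M k (c2 k i q) a = if a / M.length = a % M.length then M.length + 3 +
      (if q = 0 then a / M.length else M.length + 2 - a / M.length) else 1 := by
  obtain ⟨h1, h2⟩ := c2_dec (k := k) (i := i) hq
  unfold fv alw gv
  have h3 : ¬ c2 k i q < 4 * (k * k) := by unfold c2; omega
  rw [if_neg h3, if_neg h3, h1]
  simp only [decide_eq_true_eq]

theorem msol_iff (M : List (List Bool)) (k : ℕ) :
    MSol (sys M k).g (0, 0) (0, 1) (sys M k).K (sys M k).l ↔ ∃ w, CliqueSeq M k w := by
  constructor
  · intro h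
    obtain ⟨x, h1, h2, h3⟩ := (sys M k).sound (sys_ok M k) h
    change ∀ c < 4 * (k * k) + 2 * k, x c < M.length * M.length ∧ M.length + 3 ≤ fv M k c (x c)
      at h1
    change ∀ p ∈ eqs k, x p.1 = x p.2 at h2
    change ∀ p ∈ lks k, 3 * (M.length + 2) + 2 ≤ fv M k p.1 (x p.1) + fv M k p.2 (x p.2) at h3
    have hx2 : ∀ i < k, x (c2 k i 0) / M.length = x (c2 k i 0) % M.length ∧
        x (c2 k i 1) = x (c2 k i 0) ∧ x (c2 k i 0) / M.length < M.length := by
      intro i hi
      have a1 := h1 (c2 k i 0) (by unfold c2; omega)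
      rw [fv_c2 M (by omega)] at a1
      refine ⟨?_, ?_, ?_⟩
      · by_contra hne
        rw [if_neg hne] at a1
        omega
      · exact (h2 _ (mem_eqs.2 (Or.inr ⟨i, hi, rfl⟩))).symm
      · exact Nat.div_lt_of_lt_mul a1.1
    refine ⟨fun i => x (c2 k i 0) / M.length, fun i hi => (hx2 i hi).2.2, ?_⟩
    intro i hi j hj hij
    have e01 := h2 _ (mem_eqs.2 (Or.inl ⟨i, hi, j, hj, Or.inl rfl⟩))
    have e12 := h2 _ (mem_eqs.2 (Or.inl ⟨i, hi, j, hj, Or.inr (Or.inl rfl)⟩))
    have e23 := h2 _ (mem_eqs.2 (Or.inl ⟨i, hi, j, hj, Or.inr (Or.inr rfl)⟩))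
    simp only at e01 e12 e23
    have l0 := h3 _ (mem_lks.2 ⟨i, hi, j, hj, Or.inl rfl⟩)
    have l1 := h3 _ (mem_lks.2 ⟨i, hi, j, hj, Or.inr (Or.inl rfl)⟩)
    have l2 := h3 _ (mem_lks.2 ⟨i, hi, j, hj, Or.inr (Or.inr (Or.inl rfl))⟩)
    have l3 := h3 _ (mem_lks.2 ⟨i, hi, j, hj, Or.inr (Or.inr (Or.inr rfl))⟩)
    simp only at l0 l1 l2 l3
    obtain ⟨p1, p2, p3⟩ := hx2 i hi
    obtain ⟨q1, q2, q3⟩ := hx2 j hj
    have b0 := h1 (c1 k i j 0) (by have := c1_lt hi hj (show 0 < 4 by omega); omega)
    rw [← e23, ← e12, ← e01] at l3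
    rw [← e12, ← e01] at l2
    rw [← e01] at l1
    rw [p2] at l1
    rw [q2] at l3
    generalize x (c1 k i j 0) = a at *
    rw [fv_c1 M hi hj (by omega), if_neg hij] at b0 l0 l1 l2 l3
    rw [fv_c2 M (by omega), if_pos p1] at l0 l1
    rw [fv_c2 M (by omega), if_pos q1] at l2 l3
    by_cases hadj : adjB M (a / M.length) (a % M.length) = true
    · rw [if_pos hadj] at l0 l1 l2 l3
      have hn : 0 < M.length := by omega
      have hu : a / M.length < M.length := Nat.div_lt_of_lt_mul b0.1
      have hv : a % M.length < M.length := Nat.mod_lt _ hn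
      norm_num at l0 l1 l2 l3
      have r1 : x (c2 k i 0) / M.length = a / M.length := by omega
      have r2 : x (c2 k j 0) / M.length = a % M.length := by omega
      simp only
      rw [r1, r2]
      exact hadj
    · rw [if_neg hadj] at b0
      omega
  · rintro ⟨w, h1, h2⟩
    let n := M.length
    let x : ℕ → ℕ := fun c => if c < 4 * (k * k) then w (c / 4 / k) * n + w (c / 4 % k) else
      w ((c - 4 * (k * k)) / 2) * n + w ((c - 4 * (k * k)) / 2)
    have hd : ∀ i < k, ∀ j < k, (w i * n + w j) / n = w i ∧ (w i * n + w j) % n = w j ∧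
        w i * n + w j < n * n := by
      intro i hi j hj
      have a1 : w i < n := h1 i hi
      have a2 : w j < n := h1 j hj
      refine ⟨?_, ?_, ?_⟩
      · rw [Nat.mul_comm, Nat.mul_add_div (by omega), Nat.div_eq_of_lt a2, Nat.add_zero]
      · rw [Nat.mul_comm, Nat.mul_add_mod, Nat.mod_eq_of_lt a2]
      · have : (w i + 1) * n ≤ n * n := Nat.mul_le_mul_right _ a1
        nlinarith
    have x1 : ∀ i < k, ∀ j < k, ∀ q < 4, x (c1 k i j q) = w i * n + w j := by
      intro i hi j hj q hq
      obtain ⟨-, a2, a3⟩ := c1_dec (i := i) hj hq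
      simp only [x]
      rw [if_pos (c1_lt hi hj hq), a2, a3]
    have x2 : ∀ i < k, ∀ q < 2, x (c2 k i q) = w i * n + w i := by
      intro i hi q hq
      obtain ⟨a1, a2⟩ := c2_dec (k := k) (i := i) hq
      simp only [x]
      rw [if_neg (by unfold c2; omega), a2]
    have f1 : ∀ i < k, ∀ j < k, ∀ q < 4, fv M k (c1 k i j q) (x (c1 k i j q)) =
        n + 3 + (if q = 0 then n + 2 - w i else if q = 1 then w i else
          if q = 2 then n + 2 - w j else w j) := by
      intro i hi j hj q hq
      obtain ⟨a1, a2, a3⟩ := hd i hi j hj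
      rw [x1 i hi j hj q hq, fv_c1 M hi hj hq]
      change (if (if i = j then decide ((w i * n + w j) / n = (w i * n + w j) % n) else
        adjB M ((w i * n + w j) / n) ((w i * n + w j) % n)) then n + 3 +
      (if q = 0 then n + 2 - (w i * n + w j) / n else if q = 1 then (w i * n + w j) / n else
        if q = 2 then n + 2 - (w i * n + w j) % n else (w i * n + w j) % n) else 1) = _
      rw [a1, a2, if_pos]
      by_cases hij : i = j
      · rw [if_pos hij, hij]; simp
      · rw [if_neg hij]
        exact h2 i hi j hj hij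
    have f2 : ∀ i < k, ∀ q < 2, fv M k (c2 k i q) (x (c2 k i q)) =
        n + 3 + (if q = 0 then w i else n + 2 - w i) := by
      intro i hi q hq
      obtain ⟨a1, a2, a3⟩ := hd i hi i hi
      rw [x2 i hi q hq, fv_c2 M hq]
      change (if (w i * n + w i) / n = (w i * n + w i) % n then n + 3 +
        (if q = 0 then (w i * n + w i) / n else n + 2 - (w i * n + w i) / n) else 1) = _
      rw [a1, a2, if_pos rfl]
    have hcase : ∀ c < 4 * (k * k) + 2 * k, (∃ i < k, ∃ j < k, ∃ q < 4, c = c1 k i j q) ∨
        ∃ i < k, ∃ q < 2, c = c2 k i q := by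
      intro c hc
      by_cases h : c < 4 * (k * k)
      · left
        have hk : 0 < k := by
          rcases Nat.eq_zero_or_pos k with rfl | hk
          · omega
          · exact hk
        have a1 : c / 4 < k * k := by omega
        refine ⟨c / 4 / k, Nat.div_lt_of_lt_mul a1, c / 4 % k, Nat.mod_lt _ hk, c % 4,
          Nat.mod_lt _ (by omega), ?_⟩
        unfold c1
        have := Nat.div_add_mod (c / 4) k
        rw [Nat.mul_comm] at this
        omega
      · right
        refine ⟨(c - 4 * (k * k)) / 2, by omega, (c - 4 * (k * k)) % 2, by omega, ?_⟩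
        unfold c2
        omega
    refine (sys M k).complete (sys_ok M k) x ?_ ?_ ?_
    · change ∀ c < 4 * (k * k) + 2 * k, x c < n * n ∧ n + 3 ≤ fv M k c (x c) ∧
        fv M k c (x c) ≤ 2 * (n + 2) + 1
      intro c hc
      rcases hcase c hc with ⟨i, hi, j, hj, q, hq, rfl⟩ | ⟨i, hi, q, hq, rfl⟩
      · rw [f1 i hi j hj q hq, x1 i hi j hj q hq]
        have a1 : w i < n := h1 i hi
        have a2 : w j < n := h1 j hj
        refine ⟨(hd i hi j hj).2.2, ?_, ?_⟩
        · omega
        · split_ifs <;> omega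
      · rw [f2 i hi q hq, x2 i hi q hq]
        have a1 : w i < n := h1 i hi
        refine ⟨(hd i hi i hi).2.2, ?_, ?_⟩
        · omega
        · split_ifs <;> omega
    · change ∀ p ∈ eqs k, x p.1 = x p.2
      intro p hp
      rw [mem_eqs] at hp
      rcases hp with ⟨i, hi, j, hj, rfl | rfl | rfl⟩ | ⟨i, hi, rfl⟩
      · simp only; rw [x1 i hi j hj _ (by omega), x1 i hi j hj _ (by omega)]
      · simp only; rw [x1 i hi j hj _ (by omega), x1 i hi j hj _ (by omega)]
      · simp only; rw [x1 i hi j hj _ (by omega), x1 i hi j hj _ (by omega)]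
      · simp only; rw [x2 i hi _ (by omega), x2 i hi _ (by omega)]
    · change ∀ p ∈ lks k, fv M k p.1 (x p.1) + fv M k p.2 (x p.2) = 3 * (n + 2) + 2
      intro p hp
      rw [mem_lks] at hp
      obtain ⟨i, hi, j, hj, rfl | rfl | rfl | rfl⟩ := hp
      · simp only; rw [f1 i hi j hj _ (by omega), f2 i hi _ (by omega)]
        have a1 : w i < n := h1 i hi
        norm_num
        omega
      · simp only; rw [f1 i hi j hj _ (by omega), f2 i hi _ (by omega)]
        have a1 : w i < n := h1 i hi
        norm_num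
        omega
      · simp only; rw [f1 i hi j hj _ (by omega), f2 j hj _ (by omega)]
        have a1 : w j < n := h1 j hj
        norm_num
        omega
      · simp only; rw [f1 i hi j hj _ (by omega), f2 j hj _ (by omega)]
        have a1 : w j < n := h1 j hj
        norm_num
        omega

end Pool.Agent.Q322.SPM
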