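import Pool.Agent.H633R2.FptDefs

/-!
# Shortest Path Most Vital Edges: definitions
-/

namespace Pool.Agent.Q322.SPM

open Pool.Agent.NPC Pool.Agent.H633R2

/-- Entry `(i, j)` of a matrix of numbers given as a list of rows (missing entries are `0`). -/
def ent (M : List (List ℕ)) (i j : ℕ) : ℕ := (M.getD i []).getD j 0

/-- The length of the edge joining `i` and `j` (it is `0` if there is no such edge). -/
def tau (M : List (List ℕ)) (i j : ℕ) : ℕ := max (ent M i j) (ent M j i)

theorem tau_comm (M : List (List ℕ)) (i j : ℕ) : tau M i j = tau M j i := max_comm _ _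

/-- The graph with edge lengths given by a matrix of numbers: two different vertices `i`, `j` in
`Fin M.length` are adjacent iff `tau M i j` is not zero, and this number is then the length of the
edge. -/
def lenGraph (M : List (List ℕ)) : SimpleGraph (Fin M.length) where
  Adj i j := i ≠ j ∧ tau M i j ≠ 0
  symm := ⟨fun i j h => ⟨h.1.symm, by rw [tau_comm]; exact h.2⟩⟩
  loopless := ⟨fun _ h => h.1 rfl⟩

/-- The total length of a walk, where an edge joining `u` and `v` has length `τ u v`. -/
def walkLen {V : Type} {G : SimpleGraph V} (τ : V → V → ℕ) {u v : V} (p : G.Walk u v) : ℕ :=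
  (p.darts.map fun d => τ d.fst d.snd).sum

/-- Shortest Path Most Vital Edges: instances `(M, s, t, k, ℓ)`, where `M` is the matrix of a graph
with positive integer edge lengths; is there a set `S` of at most `k` edges such that all paths
from `s` to `t` in `G - S` have length at least `ℓ`? -/
def SPMVE (x : List (List ℕ) × ℕ × ℕ × ℕ × ℕ) : Prop :=
  ∃ (hs : x.2.1 < x.1.length) (ht : x.2.2.1 < x.1.length) (S : Finset (Sym2 (Fin x.1.length))),
    (S : Set (Sym2 (Fin x.1.length))) ⊆ (lenGraph x.1).edgeSet ∧ S.card ≤ x.2.2.2.1 ∧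
      ∀ p : ((lenGraph x.1).deleteEdges (S : Set (Sym2 (Fin x.1.length)))).Walk
        ⟨x.2.1, hs⟩ ⟨x.2.2.1, ht⟩, p.IsPath → x.2.2.2.2 ≤ walkLen (fun i j : Fin x.1.length => tau x.1 i j) p

/-- Shortest Path Most Vital Edges with unit lengths: instances `(M, s, t, k, ℓ)`, where `M` is the
matrix of a graph `G`; is there a set `S` of at most `k` edges such that all paths from `s` to `t`
in `G - S` have at least `ℓ` edges? -/
def SPMVE1 (x : List (List Bool) × ℕ × ℕ × ℕ × ℕ) : Prop :=
  ∃ (hs : x.2.1 < x.1.length) (ht : x.2.2.1 < x.1.length) (S : Finset (Sym2 (Fin x.1.length))),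
    (S : Set (Sym2 (Fin x.1.length))) ⊆ (graphOf x.1).edgeSet ∧ S.card ≤ x.2.2.2.1 ∧
      ∀ p : ((graphOf x.1).deleteEdges (S : Set (Sym2 (Fin x.1.length)))).Walk
        ⟨x.2.1, hs⟩ ⟨x.2.2.1, ht⟩, p.IsPath → x.2.2.2.2 ≤ p.length

end Pool.Agent.Q322.SPM
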