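import Pool.Agent.Q322.SPM.Sub

/-!
# The chain gadget
-/

namespace Pool.Agent.Q322.SPM

open Pool.Agent.NPC Pool.Agent.H633R2

/-- A system of chains. -/
structure Sys where
  /-- number of chains -/
  K : ℕ
  /-- number of positions of a chain -/
  P : ℕ
  /-- scale -/
  N : ℕ
  /-- the layer of a chain -/
  lay : ℕ → Bool
  /-- cost of a detour -/
  f : ℕ → ℕ → ℕ
  /-- pairs of chains which are cut at the same position -/
  eq : List (ℕ × ℕ)
  /-- linked pairs of chains -/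
  lk : List (ℕ × ℕ)

namespace Sys

variable (σ : Sys)

/-- the long links to the terminals -/
def B : ℕ := σ.P + 2 * σ.N + 5

/-- the required distance -/
def l : ℕ := 2 * σ.P + 3 * σ.N + 8

/-- first end of an edge -/
def src (e : ℕ × ℕ × ℕ × ℕ) : ℕ × ℕ :=
  if e.1 = 0 ∨ e.1 = 1 then (e.2.1 + 1, e.2.2.1) else if e.1 = 2 then (0, 0) else
    if e.1 = 4 then (e.2.1 + 1, e.2.2.2) else (e.2.1 + 1, σ.P)

/-- second end of an edge -/
def dst (e : ℕ × ℕ × ℕ × ℕ) : ℕ × ℕ :=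
  if e.1 = 0 ∨ e.1 = 1 then (e.2.1 + 1, e.2.2.1 + 1) else if e.1 = 2 then (e.2.1 + 1, 0) else
    if e.1 = 3 then (0, 1) else if e.1 = 4 then (e.2.2.1 + 1, e.2.2.2) else (e.2.2.1 + 1, 0)

/-- length of an edge -/
def len (e : ℕ × ℕ × ℕ × ℕ) : ℕ :=
  if e.1 = 0 then 1 else if e.1 = 1 then 1 + σ.f e.2.1 e.2.2.1 else
    if e.1 = 2 then (if σ.lay e.2.1 then σ.B else 2) else
    if e.1 = 3 then (if σ.lay e.2.1 then 2 else σ.B) else
    if e.1 = 4 then σ.N else 2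

/-- the edges -/
def E : List (ℕ × ℕ × ℕ × ℕ) :=
  ((List.range σ.K).flatMap fun c => (List.range σ.P).flatMap fun a =>
      [(0, c, a, 0), (1, c, a, 0)]) ++
  (((List.range σ.K).flatMap fun c => (List.range (σ.K + 1)).flatMap fun m =>
      [(2, c, m, 0), (3, c, m, 0)]) ++
  ((σ.eq.flatMap fun p => (List.range (σ.P + 1)).map fun a => (4, p.1, p.2, a)) ++
  (σ.lk.map fun p => (5, p.1, p.2, 0))))

/-- the multigraph -/
def g : MG (ℕ × ℕ) (ℕ × ℕ × ℕ × ℕ) := ⟨σ.E, σ.src, dst, σ.len⟩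

/-- conditions on the data -/
structure OK : Prop where
  hN : 2 ≤ σ.N
  hf : ∀ c a, 1 ≤ σ.f c a
  heq : ∀ p ∈ σ.eq, p.1 < σ.K ∧ p.2 < σ.K ∧ σ.lay p.1 = σ.lay p.2
  hlk : ∀ p ∈ σ.lk, p.1 < σ.K ∧ p.2 < σ.K ∧ σ.lay p.1 = false ∧ σ.lay p.2 = true

theorem mem_E (e : ℕ × ℕ × ℕ × ℕ) : e ∈ σ.E ↔
    (∃ c < σ.K, ∃ a < σ.P, e = (0, c, a, 0) ∨ e = (1, c, a, 0)) ∨
    (∃ c < σ.K, ∃ m < σ.K + 1, e = (2, c, m, 0) ∨ e = (3, c, m, 0)) ∨
    (∃ c c', (c, c') ∈ σ.eq ∧ ∃ a < σ.P + 1, e = (4, c, c', a)) ∨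
    (∃ c c', (c, c') ∈ σ.lk ∧ e = (5, c, c', 0)) := by
  unfold E
  simp only [List.mem_append, List.mem_flatMap, List.mem_range, List.mem_cons, List.not_mem_nil,
    or_false, List.mem_map, Prod.exists]
  constructor
  · rintro (⟨c, hc, a, ha, h⟩ | ⟨c, hc, a, ha, h⟩ | ⟨c, c', hc, a, ha, h⟩ | ⟨c, c', hc, h⟩)
    · exact Or.inl ⟨c, hc, a, ha, h⟩
    · exact Or.inr (Or.inl ⟨c, hc, a, ha, h⟩)
    · exact Or.inr (Or.inr (Or.inl ⟨c, c', hc, a, ha, h.symm⟩))
    · exact Or.inr (Or.inr (Or.inr ⟨c, c', hc, h.symm⟩))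
  · rintro (⟨c, hc, a, ha, h⟩ | ⟨c, hc, a, ha, h⟩ | ⟨c, c', hc, a, ha, h⟩ | ⟨c, c', hc, h⟩)
    · exact Or.inl ⟨c, hc, a, ha, h⟩
    · exact Or.inr (Or.inl ⟨c, hc, a, ha, h⟩)
    · exact Or.inr (Or.inr (Or.inl ⟨c, c', hc, a, ha, h.symm⟩))
    · exact Or.inr (Or.inr (Or.inr ⟨c, c', hc, h.symm⟩))

theorem simple1 (h : σ.OK) : Simple1 σ.g := by
  intro e he e' he' h1 h2 h3
  have key : ∀ e ∈ σ.E, σ.len e = 1 → ∃ c a, e = (0, c, a, 0) := by
    intro e he h1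
    rw [mem_E] at he
    rcases he with ⟨c, hc, a, ha, rfl | rfl⟩ | ⟨c, hc, a, ha, rfl | rfl⟩ | ⟨c, c', hc, a, ha, rfl⟩ |
      ⟨c, c', hc, rfl⟩
    · exact ⟨c, a, rfl⟩
    · have := h.hf c a
      simp [len] at h1
      omega
    · simp only [len, B] at h1
      norm_num at h1
      split_ifs at h1 <;> omega
    · simp only [len, B] at h1
      norm_num at h1
      split_ifs at h1 <;> omega
    · have := h.hN
      simp [len] at h1
      omega
    · simp [len] at h1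
  obtain ⟨c, a, rfl⟩ := key e he h1
  obtain ⟨c', a', rfl⟩ := key e' he' h2
  simp only [g, src, dst, true_or, if_true, Sym2.eq_iff, Prod.mk.injEq] at h3
  simp only [Prod.mk.injEq, true_and, and_true]
  omega

theorem len_pos (h : σ.OK) : ∀ e ∈ σ.g.E, 1 ≤ σ.g.len e := by
  intro e _
  change 1 ≤ σ.len e
  have := h.hN
  unfold len B
  split_ifs <;> omega

/-- Solutions for the chains from solutions of the graph problem. -/
theorem sound (h : σ.OK) (hS : MSol σ.g (0, 0) (0, 1) σ.K σ.l) :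
    ∃ x : ℕ → ℕ, (∀ c < σ.K, x c < σ.P ∧ σ.N + 1 ≤ σ.f c (x c)) ∧
      (∀ p ∈ σ.eq, x p.1 = x p.2) ∧
      (∀ p ∈ σ.lk, 3 * σ.N + 2 ≤ σ.f p.1 (x p.1) + σ.f p.2 (x p.2)) := by
  classical
  obtain ⟨D, hD, φ, h1, h2⟩ := hS
  have hB : σ.B = σ.P + 2 * σ.N + 5 := rfl
  have hl : σ.l = 2 * σ.P + 3 * σ.N + 8 := rfl
  rw [hl] at h1
  push_cast at h1
  have hN := h.hN
  -- links to the terminals
  have hlink : ∀ q : ℕ, ∀ c < σ.K, ∃ m < σ.K + 1, (q, c, m, 0) ∉ D := by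
    intro q c hc
    by_contra hcon
    push Not at hcon
    have h3 : ((Finset.range (σ.K + 1)).image fun m => (q, c, m, 0)) ⊆ D := by
      intro e he
      obtain ⟨m, hm, rfl⟩ := Finset.mem_image.1 he
      exact hcon m (Finset.mem_range.1 hm)
    have h4 := Finset.card_le_card h3
    rw [Finset.card_image_of_injective _ (fun a b hab => by simpa using hab),
      Finset.card_range] at h4
    omega
  have hs : ∀ c < σ.K, φ (c + 1, 0) - φ (0, 0) ≤ if σ.lay c then (σ.B : ℤ) else 2 := by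
    intro c hc
    obtain ⟨m, hm, hn⟩ := hlink 2 c hc
    have h3 := h2 (2, c, m, 0) ((mem_E _ _).2 (Or.inr (Or.inl ⟨c, hc, m, hm, Or.inl rfl⟩))) hn
    simp only [g, src, dst, len] at h3
    norm_num at h3
    have h4 := (abs_le.1 h3).2
    split_ifs at h4 ⊢ <;> exact_mod_cast h4
  have ht : ∀ c < σ.K, φ (0, 1) - φ (c + 1, σ.P) ≤ if σ.lay c then 2 else (σ.B : ℤ) := by
    intro c hc
    obtain ⟨m, hm, hn⟩ := hlink 3 c hc
    have h3 := h2 (3, c, m, 0) ((mem_E _ _).2 (Or.inr (Or.inl ⟨c, hc, m, hm, Or.inr rfl⟩))) hn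
    simp only [g, src, dst, len] at h3
    norm_num at h3
    have h4 := (abs_le.1 h3).2
    split_ifs at h4 ⊢ <;> exact_mod_cast h4
  have hst : ∀ c < σ.K, (φ (c + 1, 0) - φ (0, 0)) + (φ (0, 1) - φ (c + 1, σ.P)) ≤ σ.B + 2 := by
    intro c hc
    have h3 := hs c hc
    have h4 := ht c hc
    split_ifs at h3 h4 <;> omega
  -- segments of a chain
  have hseg : ∀ c < σ.K, ∀ a b, a ≤ b → b ≤ σ.P → (∀ i, a ≤ i → i < b → (0, c, i, 0) ∉ D) →
      φ (c + 1, b) - φ (c + 1, a) ≤ (b : ℤ) - a := by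
    intro c hc a b hab
    induction b, hab using Nat.le_induction with
    | base => intro _ _; simp
    | succ b hab ih =>
      intro hb hn
      have h3 := ih (by omega) (fun i h1 h2 => hn i h1 (by omega))
      have h4 := h2 (0, c, b, 0) ((mem_E _ _).2 (Or.inl ⟨c, hc, b, by omega, Or.inl rfl⟩))
        (hn b hab (by omega))
      simp only [g, src, dst, len] at h4
      norm_num at h4
      have h5 := (abs_le.1 h4).2
      push_cast
      omega
  have hex : ∀ c < σ.K, ∃ a < σ.P, (0, c, a, 0) ∈ D := by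
    intro c hc
    by_contra hcon
    push Not at hcon
    have h3 := hseg c hc 0 σ.P (Nat.zero_le _) le_rfl (fun i _ hi => hcon i hi)
    have h4 := hst c hc
    rw [hB] at h4
    push_cast at h3 h4
    omega
  choose! x hx hxD using hex
  -- the deleted edges are exactly these
  have hDeq : ∀ e ∈ D, ∃ c < σ.K, e = (0, c, x c, 0) := by
    have h3 : ((Finset.range σ.K).image fun c => ((0 : ℕ), c, x c, (0 : ℕ))) ⊆ D := by
      intro e he
      obtain ⟨c, hc, rfl⟩ := Finset.mem_image.1 he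
      exact hxD c (Finset.mem_range.1 hc)
    have h4 : ((Finset.range σ.K).image fun c => ((0 : ℕ), c, x c, (0 : ℕ))) = D := by
      refine Finset.eq_of_subset_of_card_le h3 ?_
      rw [Finset.card_image_of_injective _ (fun a b hab => by
        simp only [Prod.mk.injEq] at hab; exact hab.2.1), Finset.card_range]
      exact hD
    intro e he
    rw [← h4] at he
    obtain ⟨c, hc, rfl⟩ := Finset.mem_image.1 he
    exact ⟨c, Finset.mem_range.1 hc, rfl⟩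
  have hnd : ∀ c, ∀ i, i ≠ x c → (0, c, i, 0) ∉ D := by
    intro c i hi hmem
    obtain ⟨c', -, h3⟩ := hDeq _ hmem
    simp only [Prod.mk.injEq, true_and, and_true] at h3
    obtain ⟨rfl, h3⟩ := h3
    exact hi h3
  have hnk : ∀ q, q ≠ 0 → ∀ r, (q, r) ∉ D := by
    intro q hq r hmem
    obtain ⟨c', -, h3⟩ := hDeq _ hmem
    simp only [Prod.mk.injEq] at h3
    exact hq h3.1
  have hseg' : ∀ c < σ.K, ∀ a b, a ≤ b → b ≤ σ.P → (b ≤ x c ∨ x c < a) →
      φ (c + 1, b) - φ (c + 1, a) ≤ (b : ℤ) - a := by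
    intro c hc a b hab hb hor
    exact hseg c hc a b hab hb (fun i h1 h2 => hnd c i (by omega))
  -- passing a chain with its detour
  have hpass : ∀ c < σ.K, φ (c + 1, σ.P) - φ (c + 1, 0) ≤ (σ.P : ℤ) + σ.f c (x c) := by
    intro c hc
    have h3 := hseg' c hc 0 (x c) (Nat.zero_le _) (hx c hc).le (Or.inl le_rfl)
    have h4 := hseg' c hc (x c + 1) σ.P (hx c hc) le_rfl (Or.inr (by omega))
    have h5 := h2 (1, c, x c, 0) ((mem_E _ _).2 (Or.inl ⟨c, hc, x c, hx c hc, Or.inr rfl⟩))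
      (hnk 1 (by decide) _)
    simp only [g, src, dst, len] at h5
    norm_num at h5
    have h6 := (abs_le.1 h5).2
    push_cast at h3 h4 h6 ⊢
    omega
  refine ⟨x, fun c hc => ⟨hx c hc, ?_⟩, ?_, ?_⟩
  · have h3 := hpass c hc
    have h4 := hst c hc
    rw [hB] at h4
    push_cast at h4
    omega
  · have main : ∀ c < σ.K, ∀ c' < σ.K, σ.lay c = σ.lay c' →
        (∀ a ≤ σ.P, φ (c' + 1, a) - φ (c + 1, a) ≤ σ.N) → x c ≤ x c' := by
      intro c hc c' hc' hlay hcr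
      by_contra hlt
      push Not at hlt
      have h3 := hseg' c hc 0 (x c) (Nat.zero_le _) (hx c hc).le (Or.inl le_rfl)
      have h4 := hcr (x c) (hx c hc).le
      have h5 := hseg' c' hc' (x c) σ.P (hx c hc).le le_rfl (Or.inr hlt)
      have h6 := hs c hc
      have h7 := ht c' hc'
      rw [hB] at h6 h7
      push_cast at h3 h4 h5 h6 h7
      rw [← hlay] at h7
      split_ifs at h6 h7 <;> omega
    rintro ⟨c, c'⟩ hp
    obtain ⟨hc, hc', hlay⟩ := h.heq _ hp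
    simp only at hc hc' hlay ⊢
    have hcr : ∀ a ≤ σ.P, |φ (c' + 1, a) - φ (c + 1, a)| ≤ σ.N := by
      intro a ha
      have h3 := h2 (4, c, c', a) ((mem_E _ _).2 (Or.inr (Or.inr (Or.inl ⟨c, c', hp, a, by omega,
        rfl⟩)))) (hnk 4 (by decide) _)
      simp only [g, src, dst, len] at h3
      norm_num at h3
      exact h3
    refine le_antisymm (main c hc c' hc' hlay fun a ha => (abs_le.1 (hcr a ha)).2)
      (main c' hc' c hc hlay.symm fun a ha => ?_)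
    have := (abs_le.1 (hcr a ha)).1
    omega
  · rintro ⟨c, c'⟩ hp
    obtain ⟨hc, hc', hlay, hlay'⟩ := h.hlk _ hp
    simp only at hc hc' hlay hlay' ⊢
    have h3 := hpass c hc
    have h4 := hpass c' hc'
    have h5 := hs c hc
    have h6 := ht c' hc'
    rw [hlay] at h5
    rw [hlay'] at h6
    simp only [if_true, Bool.false_eq_true, if_false] at h5 h6
    have h7 := h2 (5, c, c', 0) ((mem_E _ _).2 (Or.inr (Or.inr (Or.inr ⟨c, c', hp, rfl⟩))))
      (hnk 5 (by decide) _)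
    simp only [g, src, dst, len] at h7
    norm_num at h7
    have h8 := (abs_le.1 h7).2
    omega

theorem ev0 (c a : ℕ) : dst (0, c, a, 0) = (c + 1, a + 1) ∧ σ.src (0, c, a, 0) = (c + 1, a) ∧
    σ.len (0, c, a, 0) = 1 := ⟨rfl, rfl, rfl⟩

theorem ev1 (c a : ℕ) : dst (1, c, a, 0) = (c + 1, a + 1) ∧ σ.src (1, c, a, 0) = (c + 1, a) ∧
    σ.len (1, c, a, 0) = 1 + σ.f c a := ⟨rfl, rfl, rfl⟩

theorem ev2 (c a : ℕ) : dst (2, c, a, 0) = (c + 1, 0) ∧ σ.src (2, c, a, 0) = (0, 0) ∧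
    σ.len (2, c, a, 0) = if σ.lay c then σ.B else 2 := ⟨rfl, rfl, rfl⟩

theorem ev3 (c a : ℕ) : dst (3, c, a, 0) = (0, 1) ∧ σ.src (3, c, a, 0) = (c + 1, σ.P) ∧
    σ.len (3, c, a, 0) = if σ.lay c then 2 else σ.B := ⟨rfl, rfl, rfl⟩

theorem ev4 (c c' a : ℕ) : dst (4, c, c', a) = (c' + 1, a) ∧ σ.src (4, c, c', a) = (c + 1, a) ∧
    σ.len (4, c, c', a) = σ.N := ⟨rfl, rfl, rfl⟩

theorem ev5 (c c' a : ℕ) : dst (5, c, c', a) = (c' + 1, 0) ∧ σ.src (5, c, c', a) = (c + 1, σ.P) ∧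
    σ.len (5, c, c', a) = 2 := ⟨rfl, rfl, rfl⟩

/-- Solutions of the graph problem from solutions for the chains. -/
theorem complete (h : σ.OK) (x : ℕ → ℕ)
    (hx : ∀ c < σ.K, x c < σ.P ∧ σ.N + 1 ≤ σ.f c (x c) ∧ σ.f c (x c) ≤ 2 * σ.N + 1)
    (heq : ∀ p ∈ σ.eq, x p.1 = x p.2)
    (hlk : ∀ p ∈ σ.lk, σ.f p.1 (x p.1) + σ.f p.2 (x p.2) = 3 * σ.N + 2) :
    MSol σ.g (0, 0) (0, 1) σ.K σ.l := by
  classical
  have hN := h.hN
  let φ : ℕ × ℕ → ℤ := fun v => if v.1 = 0 then (if v.2 = 0 then 0 else (σ.l : ℤ)) else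
    if σ.lay (v.1 - 1) then
      (if v.2 ≤ x (v.1 - 1) then (σ.B : ℤ) + σ.N + 1 - σ.f (v.1 - 1) (x (v.1 - 1)) + v.2 else
        (σ.B : ℤ) + σ.N + 1 + v.2) else
      (if v.2 ≤ x (v.1 - 1) then 2 + (v.2 : ℤ) else 2 + (v.2 : ℤ) + σ.f (v.1 - 1) (x (v.1 - 1)))
  have e0 : φ (0, 0) = 0 := by simp [φ]
  have e1 : φ (0, 1) = σ.l := by simp [φ]
  have ec : ∀ c a, φ (c + 1, a) = if σ.lay c then
      (if a ≤ x c then (σ.B : ℤ) + σ.N + 1 - σ.f c (x c) + a else (σ.B : ℤ) + σ.N + 1 + a) else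
      (if a ≤ x c then 2 + (a : ℤ) else 2 + (a : ℤ) + σ.f c (x c)) := by
    intro c a
    simp [φ]
  refine ⟨(Finset.range σ.K).image fun c => (0, c, x c, 0), ?_, φ, ?_, ?_⟩
  · exact Finset.card_image_le.trans (by rw [Finset.card_range])
  · rw [e0, e1]; omega
  · intro e he hn
    change e ∈ σ.E at he
    change |φ (dst e) - φ (σ.src e)| ≤ σ.len e
    rw [mem_E] at he
    rw [abs_le]
    have hB : σ.B = σ.P + 2 * σ.N + 5 := rfl
    have hl : σ.l = 2 * σ.P + 3 * σ.N + 8 := rfl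
    rcases he with ⟨c, hc, a, ha, rfl | rfl⟩ | ⟨c, hc, a, ha, rfl | rfl⟩ | ⟨c, c', hc, a, ha, rfl⟩ |
      ⟨c, c', hc, rfl⟩
    · have hne : a ≠ x c := by
        rintro rfl
        exact hn (Finset.mem_image.2 ⟨c, Finset.mem_range.2 hc, rfl⟩)
      rw [(σ.ev0 c a).1, (σ.ev0 c a).2.1, (σ.ev0 c a).2.2, ec, ec]
      push_cast
      split_ifs <;> constructor <;> omega
    · obtain ⟨h1, h2, h3⟩ := hx c hc
      have h4 := h.hf c a
      rw [(σ.ev1 c a).1, (σ.ev1 c a).2.1, (σ.ev1 c a).2.2, ec, ec]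
      by_cases hax : a = x c
      · rw [hax]
        simp only [le_refl, if_true, show ¬ (x c + 1 ≤ x c) by omega, if_false]
        push_cast
        split_ifs <;> constructor <;> omega
      · push_cast
        split_ifs <;> constructor <;> omega
    · obtain ⟨h1, h2, h3⟩ := hx c hc
      rw [(σ.ev2 c a).1, (σ.ev2 c a).2.1, (σ.ev2 c a).2.2, ec, e0]
      simp only [if_true, Nat.zero_le]
      rw [hB]
      split_ifs with hq
      · push_cast
        constructor <;> omega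
      · push_cast
        exact ⟨trivial, trivial⟩
    · obtain ⟨h1, h2, h3⟩ := hx c hc
      rw [(σ.ev3 c a).1, (σ.ev3 c a).2.1, (σ.ev3 c a).2.2, ec, e1]
      simp only [if_false, show ¬ (σ.P ≤ x c) by omega]
      rw [hB, hl]
      split_ifs <;> push_cast <;> constructor <;> omega
    · obtain ⟨hc1, hc2, hlay⟩ := h.heq _ hc
      have hxx := heq _ hc
      simp only at hc1 hc2 hlay hxx
      obtain ⟨h1, h2, h3⟩ := hx c hc1
      obtain ⟨h1', h2', h3'⟩ := hx c' hc2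
      rw [(σ.ev4 c c' a).1, (σ.ev4 c c' a).2.1, (σ.ev4 c c' a).2.2, ec, ec]
      rw [← hlay]
      rw [← hxx] at h1' h2' h3' ⊢
      split_ifs <;> constructor <;> omega
    · obtain ⟨hc1, hc2, hlay, hlay'⟩ := h.hlk _ hc
      have hxx := hlk _ hc
      simp only at hc1 hc2 hlay hlay' hxx
      obtain ⟨h1, h2, h3⟩ := hx c hc1
      obtain ⟨h1', h2', h3'⟩ := hx c' hc2
      rw [(σ.ev5 c c' 0).1, (σ.ev5 c c' 0).2.1, (σ.ev5 c c' 0).2.2, ec, ec]
      simp only [if_true, if_false, hlay, hlay', Bool.false_eq_true, Nat.zero_le,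
        show ¬ (σ.P ≤ x c) by omega]
      rw [hB]
      push_cast
      constructor <;> omega

end Sys

end Pool.Agent.Q322.SPM
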