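import Pool.Agent.Q322.SPM.Red

/-!
# The reductions to the two versions of the problem
-/

namespace Pool.Agent.Q322.SPM

open Pool.Agent.NPC Pool.Agent.H633R2

/-- the matrix of numbers of a 0/1 matrix -/
def num (M : List (List Bool)) : List (List ℕ) := M.map fun r => r.map fun b => if b then 1 else 0

theorem length_num (M : List (List Bool)) : (num M).length = M.length := by simp [num]

theorem ent_num (M : List (List Bool)) (i j : ℕ) :
    ent (num M) i j = if entry M i j then 1 else 0 := by
  unfold ent num entry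
  simp only [List.getD_eq_getElem?_getD, List.getElem?_map]
  rcases M[i]? with _ | r
  · simp
  · simp only [Option.map_some, Option.getD_some, List.getElem?_map]
    by_cases h : j < r.length
    · simp [h]
    · simp [h]

theorem num_poly : Poly num := by
  unfold num
  refine NPC.Poly.map NPC.Poly.id ?_
  refine NPC.Poly.map (NPC.Poly.snd NPC.Poly.id) ?_
  fun_prop

theorem sol_congr {V : Type} {G : SimpleGraph V} {τ τ' : V → V → ℕ}
    (h : ∀ u v, G.Adj u v → τ u v = τ' u v) (s t : V) (k l : ℕ) :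
    Sol G τ s t k l ↔ Sol G τ' s t k l := by
  unfold Sol
  constructor
  · rintro ⟨S, hS, φ, h1, h2⟩
    exact ⟨S, hS, φ, h1, fun u v huv hn => by rw [← h u v huv]; exact h2 u v huv hn⟩
  · rintro ⟨S, hS, φ, h1, h2⟩
    exact ⟨S, hS, φ, h1, fun u v huv hn => by rw [h u v huv]; exact h2 u v huv hn⟩

theorem spmve_num (M : List (List Bool)) (s t k l : ℕ) :
    SPMVE1 (M, s, t, k, l) ↔ SPMVE (num M, s, t, k, l) := by
  have hlen := length_num M
  have key : ∀ (hs : s < M.length) (ht : t < M.length),
      Sol (graphOf M) (fun _ _ => 1) ⟨s, hs⟩ ⟨t, ht⟩ k l ↔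
      Sol (lenGraph (num M)) (fun i j => tau (num M) i j) ⟨s, hlen ▸ hs⟩ ⟨t, hlen ▸ ht⟩ k l := by
    intro hs ht
    have hcast : Function.Injective (Fin.cast hlen.symm) := Fin.cast_injective _
    have hadj : ∀ u v, (graphOf M).Adj u v ↔
        (lenGraph (num M)).Adj (Fin.cast hlen.symm u) (Fin.cast hlen.symm v) := by
      intro u v
      change u ≠ v ∧ (entry M u v = true ∨ entry M v u = true) ↔
        Fin.cast hlen.symm u ≠ Fin.cast hlen.symm v ∧ tau (num M) u v ≠ 0
      rw [hcast.ne_iff]
      refine and_congr_right' ?_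
      unfold tau
      rw [ent_num, ent_num]
      split_ifs <;> simp_all
    have h1 := sol_transfer hcast hadj (fun x y _ => ⟨Fin.cast hlen x, rfl⟩)
      (fun i j => tau (num M) i j) ⟨s, hs⟩ ⟨t, ht⟩ k l
    have h2 := sol_congr (G := graphOf M) (τ := fun _ _ => 1)
      (τ' := fun u v => tau (num M) (Fin.cast hlen.symm u) (Fin.cast hlen.symm v)) (by
        intro u v huv
        have h3 : entry M u v = true ∨ entry M v u = true := huv.2
        change 1 = tau (num M) u v
        unfold tau
        rw [ent_num, ent_num]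
        split_ifs <;> simp_all) ⟨s, hs⟩ ⟨t, ht⟩ k l
    rw [h2]
    exact h1
  constructor
  · rintro ⟨hs, ht, h⟩
    have h1 := (key hs ht).1 ((sol_iff _ _ _ _ _ _).2 (by simpa only [walkLen_one] using h))
    exact ⟨by rw [hlen]; exact hs, by rw [hlen]; exact ht, (sol_iff _ _ _ _ _ _).1 h1⟩
  · rintro ⟨hs, ht, h⟩
    simp only at hs ht
    rw [hlen] at hs ht
    have h1 := (sol_iff _ _ _ _ _ _).1 ((key hs ht).2 ((sol_iff _ _ _ _ _ _).2 h))
    exact ⟨hs, ht, by simpa only [walkLen_one] using h1⟩

theorem par_le (x : List (List Bool) × ℕ) : (inst1 x).2.2.2.1 ≤ 4 * (x.2 * x.2) + 2 * x.2 := by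
  change 4 * (min x.2 (x.1.length + 1) * min x.2 (x.1.length + 1)) +
    2 * min x.2 (x.1.length + 1) ≤ _
  have h := min_le_left x.2 (x.1.length + 1)
  have := Nat.mul_le_mul h h
  omega

theorem bound_computable : Computable (fun n : ℕ => 4 * (n * n) + 2 * n) :=
  add_computable (mul_computable (Computable.const 4) (mul_computable Computable.id Computable.id))
    (mul_computable (Computable.const 2) Computable.id)

theorem w1_one : W1Hard (fun x : List (List Bool) × ℕ × ℕ × ℕ × ℕ => x.2.2.2.1) SPMVE1 :=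
  W1Hard.of_clique ⟨inst1, fun n => 4 * (n * n) + 2 * n, FptTime.of_poly inst1_poly,
    bound_computable, fun x => ⟨inst1_iff x, par_le x⟩⟩

theorem w1_len : W1Hard (fun x : List (List ℕ) × ℕ × ℕ × ℕ × ℕ => x.2.2.2.1) SPMVE := by
  refine W1Hard.of_clique ⟨fun x => (num (inst1 x).1, (inst1 x).2), fun n => 4 * (n * n) + 2 * n,
    FptTime.of_poly ?_, bound_computable, fun x => ⟨?_, par_le x⟩⟩
  · have h := inst1_poly
    exact NPC.Poly.pair (num_poly.comp (NPC.Poly.fst h)) (NPC.Poly.snd h)
  · rw [inst1_iff]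
    exact spmve_num _ _ _ _ _

end Pool.Agent.Q322.SPM
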