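import Pool.Agent.Q322.SPM.Defs
import Pool.Agent.Q322.Mat

/-!
# Distances and potentials
-/

namespace Pool.Agent.Q322.SPM

open Pool.Agent.NPC Pool.Agent.H633R2

variable {V : Type} {G : SimpleGraph V}

@[simp] theorem walkLen_nil (τ : V → V → ℕ) (u : V) :
    walkLen τ (SimpleGraph.Walk.nil : G.Walk u u) = 0 := rfl

@[simp] theorem walkLen_cons (τ : V → V → ℕ) {u v w : V} (h : G.Adj u v) (p : G.Walk v w) :
    walkLen τ (SimpleGraph.Walk.cons h p) = τ u v + walkLen τ p := by
  simp [walkLen]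

theorem walkLen_concat (τ : V → V → ℕ) {u v w : V} (p : G.Walk u v) (h : G.Adj v w) :
    walkLen τ (p.concat h) = walkLen τ p + τ v w := by
  simp [walkLen, SimpleGraph.Walk.darts_concat]

theorem walkLen_one {u v : V} (p : G.Walk u v) : walkLen (fun _ _ => 1) p = p.length := by
  simp [walkLen]

theorem walkLen_bypass_le [DecidableEq V] (τ : V → V → ℕ) {u v : V} (p : G.Walk u v) :
    walkLen τ p.bypass ≤ walkLen τ p := by
  have h1 : p.bypass.darts.Nodup :=
    SimpleGraph.Walk.darts_nodup_of_support_nodup p.bypass_isPath.support_nodup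
  have h2 : List.Subperm p.bypass.darts p.darts := h1.subperm p.darts_bypass_subset_darts
  obtain ⟨l, hl, hl'⟩ := h2
  unfold walkLen
  rw [← (hl.map _).sum_eq]
  exact (hl'.map _).sum_le_sum (fun _ _ => Nat.zero_le _)

/-- The paths from `s` to `t` have length at least `l` iff there is a potential. -/
theorem paths_iff (τ : V → V → ℕ) (s t : V) (l : ℕ) :
    (∀ p : G.Walk s t, p.IsPath → l ≤ walkLen τ p) ↔
      ∃ φ : V → ℤ, (l : ℤ) ≤ φ t - φ s ∧ ∀ u v, G.Adj u v → φ v - φ u ≤ τ u v := by
  classical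
  constructor
  · intro h
    let A : V → Set ℕ := fun v => {m | m = l ∨ ∃ p : G.Walk s v, walkLen τ p = m}
    have hA : ∀ v, (A v).Nonempty := fun v => ⟨l, Or.inl rfl⟩
    refine ⟨fun v => (sInf (A v) : ℕ), ?_, ?_⟩
    · have h1 : sInf (A s) ≤ 0 := Nat.sInf_le (Or.inr ⟨SimpleGraph.Walk.nil, rfl⟩)
      have h2 : l ≤ sInf (A t) := by
        rcases Nat.sInf_mem (hA t) with h2 | ⟨p, hp⟩
        · exact h2.ge
        · rw [← hp]
          exact (h _ p.bypass_isPath).trans (walkLen_bypass_le τ p)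
      simp only
      omega
    · intro u v huv
      have h1 : sInf (A v) ≤ sInf (A u) + τ u v := by
        rcases Nat.sInf_mem (hA u) with h2 | ⟨p, hp⟩
        · rw [h2]
          exact (Nat.sInf_le (Or.inl rfl)).trans (Nat.le_add_right _ _)
        · rw [← hp]
          exact Nat.sInf_le (Or.inr ⟨p.concat huv, walkLen_concat τ p huv⟩)
      simp only
      omega
  · rintro ⟨φ, h1, h2⟩ p -
    have key : ∀ {u v : V} (p : G.Walk u v), φ v - φ u ≤ walkLen τ p := by
      intro u v p
      induction p with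
      | nil => simp
      | @cons u v w h p ih =>
        have := h2 u v h
        rw [walkLen_cons]
        push_cast
        omega
    have := key p
    omega

/-- The abstract problem: delete at most `k` edges such that there is a potential. -/
def Sol (G : SimpleGraph V) (τ : V → V → ℕ) (s t : V) (k l : ℕ) : Prop :=
  ∃ S : Finset (Sym2 V), S.card ≤ k ∧ ∃ φ : V → ℤ, (l : ℤ) ≤ φ t - φ s ∧
    ∀ u v, G.Adj u v → s(u, v) ∉ S → φ v - φ u ≤ τ u v

theorem sol_iff (G : SimpleGraph V) (τ : V → V → ℕ) (s t : V) (k l : ℕ) :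
    Sol G τ s t k l ↔ ∃ S : Finset (Sym2 V), (S : Set (Sym2 V)) ⊆ G.edgeSet ∧ S.card ≤ k ∧
      ∀ p : (G.deleteEdges (S : Set (Sym2 V))).Walk s t, p.IsPath → l ≤ walkLen τ p := by
  classical
  constructor
  · rintro ⟨S, hS, φ, h1, h2⟩
    refine ⟨S.filter (fun e => e ∈ G.edgeSet), ?_, (Finset.card_filter_le _ _).trans hS, ?_⟩
    · intro e he
      simp only [Finset.coe_filter, Set.mem_ofPred_eq] at he
      exact he.2
    · rw [paths_iff]
      refine ⟨φ, h1, fun u v huv => h2 u v ?_ ?_⟩
      · exact (SimpleGraph.deleteEdges_adj.1 huv).1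
      · intro h
        refine (SimpleGraph.deleteEdges_adj.1 huv).2 ?_
        simp only [Finset.coe_filter, Set.mem_ofPred_eq]
        exact ⟨h, (SimpleGraph.deleteEdges_adj.1 huv).1⟩
  · rintro ⟨S, -, hS, h⟩
    rw [paths_iff] at h
    obtain ⟨φ, h1, h2⟩ := h
    exact ⟨S, hS, φ, h1, fun u v huv hn => h2 u v (SimpleGraph.deleteEdges_adj.2 ⟨huv, hn⟩)⟩

/-- Transfer to a graph with more (isolated) vertices. -/
theorem sol_transfer {W : Type} {G : SimpleGraph V} {H : SimpleGraph W} {f : V → W}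
    (hf : Function.Injective f) (hadj : ∀ u v, G.Adj u v ↔ H.Adj (f u) (f v))
    (hran : ∀ x y, H.Adj x y → ∃ u, f u = x) (τ : W → W → ℕ) (s t : V) (k l : ℕ) :
    Sol G (fun u v => τ (f u) (f v)) s t k l ↔ Sol H τ (f s) (f t) k l := by
  classical
  constructor
  · rintro ⟨S, hS, φ, h1, h2⟩
    refine ⟨S.image (Sym2.map f), Finset.card_image_le.trans hS, fun x =>
      if h : ∃ u, f u = x then φ h.choose else 0, ?_, ?_⟩
    · have e : ∀ u : V, (if h : ∃ u', f u' = f u then φ h.choose else 0) = φ u := by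
        intro u
        have h : ∃ u', f u' = f u := ⟨u, rfl⟩
        rw [dif_pos h, hf h.choose_spec]
      simp only [e]
      exact h1
    · intro x y hxy hn
      obtain ⟨u, rfl⟩ := hran x y hxy
      obtain ⟨v, rfl⟩ := hran y _ hxy.symm
      have e : ∀ u : V, (if h : ∃ u', f u' = f u then φ h.choose else 0) = φ u := by
        intro u
        have h : ∃ u', f u' = f u := ⟨u, rfl⟩
        rw [dif_pos h, hf h.choose_spec]
      simp only [e]
      refine h2 u v ((hadj u v).2 hxy) (fun h => hn ?_)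
      rw [Finset.mem_image]
      exact ⟨_, h, rfl⟩
  · rintro ⟨S, hS, φ, h1, h2⟩
    refine ⟨S.preimage (Sym2.map f) (Sym2.map.injective hf).injOn, ?_, fun u => φ (f u), h1, ?_⟩
    · rw [Finset.card_preimage]
      exact (Finset.card_filter_le _ _).trans hS
    · intro u v huv hn
      refine h2 _ _ ((hadj u v).1 huv) (fun h => hn ?_)
      rw [Finset.mem_preimage]
      exact h

end Pool.Agent.Q322.SPM
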