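import Pool.Agent.Q322.SPM.Clq

/-!
# The reduction from clique
-/

namespace Pool.Agent.Q322.SPM

open Pool.Agent.NPC Pool.Agent.H633R2

/-- labels of the vertices -/
abbrev Lb := (ℕ × ℕ) ⊕ ((ℕ × ℕ × ℕ × ℕ) × ℕ)

/-- a bound for all the coordinates -/
def bd (M : List (List Bool)) (k : ℕ) : ℕ :=
  4 * (k * k) + 2 * k + M.length * M.length + 2 * (M.length + 2) + 10

/-- all labels with small coordinates -/
def allLb (R : ℕ) : List Lb :=
  ((List.range R ×ˢ List.range R).map Sum.inl) ++
  (((List.range R ×ˢ (List.range R ×ˢ (List.range R ×ˢ List.range R))) ×ˢ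
    List.range R).map Sum.inr)

theorem mem_allLb_inl (R a b : ℕ) : (Sum.inl (a, b) : Lb) ∈ allLb R ↔ a < R ∧ b < R := by
  simp [allLb, List.mem_product]

theorem mem_allLb_inr (R a b c d e : ℕ) : (Sum.inr ((a, b, c, d), e) : Lb) ∈ allLb R ↔
    (a < R ∧ b < R ∧ c < R ∧ d < R) ∧ e < R := by
  simp [allLb, List.mem_product]

theorem nodup_allLb (R : ℕ) : (allLb R).Nodup := by
  unfold allLb
  refine List.Nodup.append ?_ ?_ ?_
  · exact (List.nodup_range.product List.nodup_range).map Sum.inl_injective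
  · exact ((List.nodup_range.product (List.nodup_range.product (List.nodup_range.product
      List.nodup_range))).product List.nodup_range).map Sum.inr_injective
  · intro x hx hy
    simp only [List.mem_map] at hx hy
    obtain ⟨a, -, rfl⟩ := hx
    obtain ⟨b, -, h⟩ := hy
    cases h

/-- the list of the vertices; it begins with the two terminals -/
def vs (R : ℕ) : List Lb :=
  Sum.inl (0, 0) :: Sum.inl (0, 1) :: (allLb R).filter fun x =>
    decide (x ≠ Sum.inl (0, 0)) && decide (x ≠ Sum.inl (0, 1))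

theorem nodup_vs (R : ℕ) : (vs R).Nodup := by
  unfold vs
  rw [List.nodup_cons, List.nodup_cons]
  refine ⟨?_, ?_, (nodup_allLb R).filter _⟩
  · simp
  · simp

theorem mem_vs {R : ℕ} {x : Lb} (h : x ∈ allLb R) : x ∈ vs R := by
  unfold vs
  by_cases h1 : x = Sum.inl (0, 0)
  · simp [h1]
  · by_cases h2 : x = Sum.inl (0, 1)
    · simp [h2]
    · simp [h, h1, h2]

/-- the adjacency test -/
def ad (M : List (List Bool)) (k : ℕ) (x y : Lb) : Bool :=
  (sys M k).E.any fun e => (List.range (bd M k)).any fun i => decide (i < (sys M k).len e) &&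
    (decide (x = pt (sys M k).g e i) && decide (y = pt (sys M k).g e (i + 1)))

theorem gv_le (M : List (List Bool)) (k c a : ℕ) (h : a < M.length * M.length) :
    gv M k c a ≤ M.length + 2 := by
  have hn : 0 < M.length := by
    rcases Nat.eq_zero_or_pos M.length with h0 | h0
    · rw [h0] at h; omega
    · exact h0
  have h1 : a / M.length < M.length := Nat.div_lt_of_lt_mul h
  have h2 : a % M.length < M.length := Nat.mod_lt _ hn
  unfold gv
  generalize a / M.length = u at *
  generalize a % M.length = v at *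
  split_ifs <;> omega

theorem bound_E (M : List (List Bool)) (k : ℕ) {q c m a : ℕ} (he : (q, c, m, a) ∈ (sys M k).E) :
    q < 6 ∧ c + 1 < bd M k ∧ m + 1 < bd M k ∧ a + 1 < bd M k ∧
      (sys M k).len (q, c, m, a) < bd M k := by
  have hK : (sys M k).K = 4 * (k * k) + 2 * k := rfl
  have hP : (sys M k).P = M.length * M.length := rfl
  have hNN : (sys M k).N = M.length + 2 := rfl
  have hB : (sys M k).B = M.length * M.length + 2 * (M.length + 2) + 5 := rfl
  have hlen : ∀ e ∈ (sys M k).E, (sys M k).len e < bd M k := by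
    intro e he
    rw [Sys.mem_E] at he
    rcases he with ⟨c, hc, a, ha, rfl | rfl⟩ | ⟨c, hc, a, ha, rfl | rfl⟩ | ⟨c, c', hc, a, ha, rfl⟩ |
      ⟨c, c', hc, rfl⟩
    · rw [((sys M k).ev0 c a).2.2]
      unfold bd
      omega
    · rw [((sys M k).ev1 c a).2.2]
      change 1 + fv M k c a < bd M k
      have := gv_le M k c a ha
      unfold bd fv
      split_ifs <;> omega
    · rw [((sys M k).ev2 c a).2.2, hB]
      unfold bd
      split_ifs <;> omega
    · rw [((sys M k).ev3 c a).2.2, hB]
      unfold bd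
      split_ifs <;> omega
    · rw [((sys M k).ev4 c c' a).2.2, hNN]
      unfold bd
      omega
    · rw [((sys M k).ev5 c c' 0).2.2]
      unfold bd
      omega
  have h1 := hlen _ he
  rw [Sys.mem_E] at he
  rcases he with ⟨c, hc, a, ha, h | h⟩ | ⟨c, hc, a, ha, h | h⟩ | ⟨c, c', hc, a, ha, h⟩ |
      ⟨c, c', hc, h⟩ <;> simp only [Prod.mk.injEq] at h <;> obtain ⟨rfl, rfl, rfl, rfl⟩ := h
  · unfold bd at h1 ⊢
    omega
  · unfold bd at h1 ⊢
    omega
  · unfold bd at h1 ⊢
    omega
  · unfold bd at h1 ⊢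
    omega
  · have h2 := (sys_ok M k).heq _ hc
    simp only at h2
    unfold bd at h1 ⊢
    omega
  · have h2 := (sys_ok M k).hlk _ hc
    simp only at h2
    unfold bd at h1 ⊢
    omega

theorem U_adj (M : List (List Bool)) (k : ℕ) (x y : Lb) :
    (U (sys M k).g).Adj x y ↔ x ≠ y ∧ (ad M k x y = true ∨ ad M k y x = true) := by
  have key : ∀ x y : Lb, ad M k x y = true ↔ ∃ e ∈ (sys M k).g.E, ∃ i < (sys M k).g.len e,
      x = pt (sys M k).g e i ∧ y = pt (sys M k).g e (i + 1) := by
    intro x y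
    unfold ad
    simp only [List.any_eq_true, List.mem_range, Bool.and_eq_true, decide_eq_true_eq]
    constructor
    · rintro ⟨e, he, i, -, h1, h2⟩
      exact ⟨e, he, i, h1, h2⟩
    · rintro ⟨e, he, i, h1, h2⟩
      have h3 := (bound_E M k (q := e.1) (c := e.2.1) (m := e.2.2.1) (a := e.2.2.2) he).2.2.2.2
      exact ⟨e, he, i, h1.trans h3, h1, h2⟩
  rw [key, key]
  exact SimpleGraph.fromRel_adj _ _ _

theorem pt_mem (M : List (List Bool)) (k : ℕ) {e : ℕ × ℕ × ℕ × ℕ} (he : e ∈ (sys M k).E) {i : ℕ}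
    (hi : i ≤ (sys M k).len e) : pt (sys M k).g e i ∈ allLb (bd M k) := by
  obtain ⟨q, c, m, a⟩ := e
  obtain ⟨h1, h2, h3, h4, h5⟩ := bound_E M k he
  have hP : (sys M k).P < bd M k := by
    change M.length * M.length < bd M k
    unfold bd
    omega
  have h10 : 10 ≤ bd M k := by unfold bd; omega
  unfold pt
  split_ifs with ha hb
  · change Sum.inl ((sys M k).src (q, c, m, a)) ∈ _
    unfold Sys.src
    split_ifs <;> rw [mem_allLb_inl] <;> (try simp only) <;> omega
  · rw [mem_allLb_inr]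
    omega
  · change Sum.inl (Sys.dst (q, c, m, a)) ∈ _
    unfold Sys.dst
    split_ifs <;> rw [mem_allLb_inl] <;> (try simp only) <;> omega

/-- The instance of the unit length problem which belongs to an instance of clique. -/
def inst1 (x : List (List Bool) × ℕ) : List (List Bool) × ℕ × ℕ × ℕ × ℕ :=
  (mat (vs (bd x.1 (min x.2 (x.1.length + 1)))) (ad x.1 (min x.2 (x.1.length + 1))), 0, 1,
    (sys x.1 (min x.2 (x.1.length + 1))).K, (sys x.1 (min x.2 (x.1.length + 1))).l)

theorem cliqueSeq_min (M : List (List Bool)) (k : ℕ) :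
    (∃ w, CliqueSeq M k w) ↔ ∃ w, CliqueSeq M (min k (M.length + 1)) w := by
  constructor
  · rintro ⟨w, h1, h2⟩
    exact ⟨w, fun i hi => h1 i (by omega), fun i hi j hj => h2 i (by omega) j (by omega)⟩
  · rintro ⟨w, h1, h2⟩
    have hk : k ≤ M.length := by
      by_contra hcon
      have hm : min k (M.length + 1) = M.length + 1 := by omega
      rw [hm] at h1 h2
      have hinj : Function.Injective (fun i : Fin (M.length + 1) => (⟨w i, h1 i i.2⟩ :
          Fin M.length)) := by
        intro i j hij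
        simp only [Fin.mk.injEq] at hij
        by_contra hne
        have := h2 i i.2 j j.2 (fun h => hne (Fin.ext h))
        simp [adjB, hij] at this
      have := Fintype.card_le_of_injective _ hinj
      simp at this
    rw [min_eq_left (by omega)] at h1 h2
    exact ⟨w, h1, h2⟩

theorem inst1_iff (x : List (List Bool) × ℕ) : HasClique x ↔ SPMVE1 (inst1 x) := by
  obtain ⟨M, k₀⟩ := x
  rw [hasClique_iff]
  simp only
  rw [cliqueSeq_min]
  unfold inst1 SPMVE1
  simp only
  generalize min k₀ (M.length + 1) = k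
  rw [← msol_iff, ← unit_iff ((sys M k).simple1 (sys_ok M k)) ((sys M k).len_pos (sys_ok M k))]
  have hlen : 2 ≤ (mat (vs (bd M k)) (ad M k)).length := by
    rw [length_mat]
    simp [vs]
  have hs : 0 < (mat (vs (bd M k)) (ad M k)).length := by omega
  have ht : 1 < (mat (vs (bd M k)) (ad M k)).length := by omega
  have l0 : lab (vs (bd M k)) (ad M k) ⟨0, hs⟩ = Sum.inl (0, 0) := rfl
  have l1 : lab (vs (bd M k)) (ad M k) ⟨1, ht⟩ = Sum.inl (0, 1) := rfl
  rw [← l0, ← l1, ← sol_transfer (G := graphOf (mat (vs (bd M k)) (ad M k)))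
    (lab_injective (nodup_vs _) (ad M k)) ?_ ?_, sol_iff]
  · simp only [walkLen_one]
    constructor
    · rintro ⟨S, h1, h2, h3⟩
      exact ⟨hs, ht, S, h1, h2, h3⟩
    · rintro ⟨_, _, S, h1, h2, h3⟩
      exact ⟨S, h1, h2, h3⟩
  · intro u v
    rw [adj_mat, U_adj]
    refine and_congr_left' (not_congr ?_)
    exact (lab_injective (nodup_vs _) (ad M k)).eq_iff.symm
  · intro x y hxy
    refine exists_lab _ (mem_vs ?_)
    obtain ⟨-, ⟨e, he, i, hi, rfl, -⟩ | ⟨e, he, i, hi, -, rfl⟩⟩ :=
      (SimpleGraph.fromRel_adj _ _ _).1 hxy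
    · exact pt_mem M k he (le_of_lt hi)
    · exact pt_mem M k he hi

/-! ### Polynomial time -/

section

variable {α : Type} [TEnc α] {M : α → List (List Bool)} {k : α → ℕ}

theorem bd_u (hM : Poly M) (hk : UPoly k) : UPoly (fun a => bd (M a) (k a)) := by
  unfold bd
  have hl : UPoly (fun a => (M a).length) := UPoly.length hM
  exact ((((UPoly.const 4).mul (hk.mul hk)).add ((UPoly.const 2).mul hk)).add (hl.mul hl)).add
    ((UPoly.const 2).mul (hl.add (UPoly.const 2))) |>.add (UPoly.const 10)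

theorem allLb_poly {R : α → ℕ} (hR : UPoly R) : Poly (fun a => allLb (R a)) := by
  unfold allLb
  have h := hR.range
  fun_prop

theorem vs_poly {R : α → ℕ} (hR : UPoly R) : Poly (fun a => vs (R a)) := by
  unfold vs
  have h := allLb_poly hR
  simp only [ne_eq]
  fun_prop

theorem fv_poly {c b : α → ℕ} (hM : Poly M) (hk : Poly k) (hc : Poly c) (hb : Poly b) :
    Poly (fun a => fv (M a) (k a) (c a) (b a)) := by
  unfold fv alw gv
  fun_prop

attribute [fun_prop] fv_poly

theorem B_poly (hM : Poly M) : Poly (fun a => (sys (M a) (k a)).B) := by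
  change Poly (fun a => (M a).length * (M a).length + 2 * ((M a).length + 2) + 5)
  fun_prop

theorem len_poly {e : α → ℕ × ℕ × ℕ × ℕ} (hM : Poly M) (hk : Poly k) (he : Poly e) :
    Poly (fun a => (sys (M a) (k a)).len (e a)) := by
  have hB : Poly (fun a => (sys (M a) (k a)).B) := B_poly hM
  change Poly (fun a => if (e a).1 = 0 then 1 else
    if (e a).1 = 1 then 1 + fv (M a) (k a) (e a).2.1 (e a).2.2.1 else
    if (e a).1 = 2 then
      (if decide (4 * (k a * k a) ≤ (e a).2.1) then (sys (M a) (k a)).B else 2) else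
    if (e a).1 = 3 then
      (if decide (4 * (k a * k a) ≤ (e a).2.1) then 2 else (sys (M a) (k a)).B) else
    if (e a).1 = 4 then (M a).length + 2 else 2)
  fun_prop

theorem src_poly {e : α → ℕ × ℕ × ℕ × ℕ} (hM : Poly M) (he : Poly e) :
    Poly (fun a => (sys (M a) (k a)).src (e a)) := by
  change Poly (fun a => if (e a).1 = 0 ∨ (e a).1 = 1 then ((e a).2.1 + 1, (e a).2.2.1) else
    if (e a).1 = 2 then (0, 0) else if (e a).1 = 4 then ((e a).2.1 + 1, (e a).2.2.2) else
    ((e a).2.1 + 1, (M a).length * (M a).length))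
  fun_prop

theorem dst_poly {e : α → ℕ × ℕ × ℕ × ℕ} (he : Poly e) : Poly (fun a => Sys.dst (e a)) := by
  unfold Sys.dst
  fun_prop

theorem eqs_poly (hk : UPoly k) : Poly (fun a => eqs (k a)) := by
  have h := hk.range
  have h' := hk.toPoly
  unfold eqs
  refine NPC.Poly.append (NPC.Poly.flatMap h ?_) (NPC.Poly.map h ?_)
  · refine NPC.Poly.flatMap (h.comp (NPC.Poly.fst NPC.Poly.id)) ?_
    unfold c1
    fun_prop
  · unfold c2
    fun_prop

theorem lks_poly (hk : UPoly k) : Poly (fun a => lks (k a)) := by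
  have h := hk.range
  have h' := hk.toPoly
  unfold lks
  refine NPC.Poly.flatMap h ?_
  refine NPC.Poly.flatMap (h.comp (NPC.Poly.fst NPC.Poly.id)) ?_
  unfold c1 c2
  fun_prop

theorem E_poly (hM : Poly M) (hk : UPoly k) : Poly (fun a => (sys (M a) (k a)).E) := by
  change Poly (fun a => ((List.range (4 * (k a * k a) + 2 * k a)).flatMap fun c =>
    (List.range ((M a).length * (M a).length)).flatMap fun b => [(0, c, b, 0), (1, c, b, 0)]) ++
    (((List.range (4 * (k a * k a) + 2 * k a)).flatMap fun c =>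
      (List.range (4 * (k a * k a) + 2 * k a + 1)).flatMap fun m =>
      [(2, c, m, 0), (3, c, m, 0)]) ++
    (((eqs (k a)).flatMap fun p => (List.range ((M a).length * (M a).length + 1)).map fun b =>
      (4, p.1, p.2, b)) ++ ((lks (k a)).map fun p => (5, p.1, p.2, 0)))))
  have hl : UPoly (fun a => (M a).length) := UPoly.length hM
  have h1 := (((UPoly.const 4).mul (hk.mul hk)).add ((UPoly.const 2).mul hk)).range
  have h2 := ((((UPoly.const 4).mul (hk.mul hk)).add ((UPoly.const 2).mul hk)).add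
    (UPoly.const 1)).range
  have h3 := (hl.mul hl).range
  have h4 := ((hl.mul hl).add (UPoly.const 1)).range
  have h5 := eqs_poly hk
  have h6 := lks_poly hk
  refine NPC.Poly.append (NPC.Poly.flatMap h1 ?_) (NPC.Poly.append (NPC.Poly.flatMap h1 ?_)
    (NPC.Poly.append (NPC.Poly.flatMap h5 ?_) (NPC.Poly.map h6 ?_)))
  · refine NPC.Poly.flatMap (h3.comp (NPC.Poly.fst NPC.Poly.id)) ?_
    fun_prop
  · refine NPC.Poly.flatMap (h2.comp (NPC.Poly.fst NPC.Poly.id)) ?_
    fun_prop
  · refine NPC.Poly.map (h4.comp (NPC.Poly.fst NPC.Poly.id)) ?_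
    fun_prop
  · fun_prop

theorem pt_poly {e : α → ℕ × ℕ × ℕ × ℕ} {i : α → ℕ} (hM : Poly M) (hk : Poly k) (he : Poly e)
    (hi : Poly i) : Poly (fun a => pt (sys (M a) (k a)).g (e a) (i a)) := by
  have h1 : Poly (fun a => (sys (M a) (k a)).len (e a)) := len_poly hM hk he
  have h2 : Poly (fun a => (sys (M a) (k a)).src (e a)) := src_poly hM he
  have h3 : Poly (fun a => Sys.dst (e a)) := dst_poly he
  change Poly (fun a => if i a = 0 then Sum.inl ((sys (M a) (k a)).src (e a)) else
    if i a < (sys (M a) (k a)).len (e a) then Sum.inr (e a, i a) else Sum.inl (Sys.dst (e a)))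
  fun_prop

theorem ad_poly {x y : α → Lb} (hM : Poly M) (hk : UPoly k) (hx : Poly x) (hy : Poly y) :
    Poly (fun a => ad (M a) (k a) (x a) (y a)) := by
  have h1 := E_poly hM hk
  have h2 := (bd_u hM hk).range
  have hk' := hk.toPoly
  unfold ad
  have h3 : Poly (fun p : (α × (ℕ × ℕ × ℕ × ℕ)) × ℕ => (sys (M p.1.1) (k p.1.1)).len p.1.2) :=
    len_poly (M := fun p : (α × (ℕ × ℕ × ℕ × ℕ)) × ℕ => M p.1.1) (k := fun p => k p.1.1)
      (by fun_prop) (by fun_prop) (by fun_prop)
  have h4 : Poly (fun p : (α × (ℕ × ℕ × ℕ × ℕ)) × ℕ => pt (sys (M p.1.1) (k p.1.1)).g p.1.2 p.2) :=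
    pt_poly (M := fun p : (α × (ℕ × ℕ × ℕ × ℕ)) × ℕ => M p.1.1) (k := fun p => k p.1.1)
      (by fun_prop) (by fun_prop) (by fun_prop) (by fun_prop)
  have h5 : Poly (fun p : (α × (ℕ × ℕ × ℕ × ℕ)) × ℕ =>
      pt (sys (M p.1.1) (k p.1.1)).g p.1.2 (p.2 + 1)) :=
    pt_poly (M := fun p : (α × (ℕ × ℕ × ℕ × ℕ)) × ℕ => M p.1.1) (k := fun p => k p.1.1)
      (by fun_prop) (by fun_prop) (by fun_prop) (by fun_prop)
  refine NPC.Poly.any h1 ?_
  refine NPC.Poly.any (h2.comp (NPC.Poly.fst NPC.Poly.id)) ?_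
  fun_prop

end

theorem kk_u : UPoly (fun x : List (List Bool) × ℕ => min x.2 (x.1.length + 1)) := by
  refine UPoly.of_le (n := fun x : List (List Bool) × ℕ => x.1.length + 1) (by fun_prop)
    ((UPoly.length (by fun_prop)).add (UPoly.const 1)) (fun x => min_le_right _ _)

theorem inst1_poly : Poly inst1 := by
  have hk := kk_u
  have hk' := hk.toPoly
  have hM : Poly (fun x : List (List Bool) × ℕ => x.1) := by fun_prop
  have h1 : Poly (fun x : List (List Bool) × ℕ =>
      mat (vs (bd x.1 (min x.2 (x.1.length + 1)))) (ad x.1 (min x.2 (x.1.length + 1)))) := by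
    refine mat_poly (vs_poly (bd_u hM hk)) ?_
    exact ad_poly (α := ((List (List Bool) × ℕ) × Lb) × Lb) (M := fun x => x.1.1.1)
      (k := fun x => min x.1.1.2 (x.1.1.1.length + 1)) (by fun_prop)
      (hk.comp (f := fun x : ((List (List Bool) × ℕ) × Lb) × Lb => x.1.1) (by fun_prop))
      (by fun_prop) (by fun_prop)
  have h2 : Poly (fun x : List (List Bool) × ℕ => (sys x.1 (min x.2 (x.1.length + 1))).K) := by
    change Poly (fun x : List (List Bool) × ℕ =>
      4 * (min x.2 (x.1.length + 1) * min x.2 (x.1.length + 1)) + 2 * min x.2 (x.1.length + 1))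
    fun_prop
  have h3 : Poly (fun x : List (List Bool) × ℕ => (sys x.1 (min x.2 (x.1.length + 1))).l) := by
    change Poly (fun x : List (List Bool) × ℕ =>
      2 * (x.1.length * x.1.length) + 3 * (x.1.length + 2) + 8)
    fun_prop
  unfold inst1
  fun_prop

end Pool.Agent.Q322.SPM
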