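import Pool.Agent.Q322.SPM.Pot

/-!
# Subdivision: multigraphs with edge lengths as simple graphs with unit lengths
-/

namespace Pool.Agent.Q322.SPM

open Pool.Agent.NPC Pool.Agent.H633R2

/-- A multigraph with edge lengths. -/
structure MG (Λ T : Type) where
  /-- the list of the edges -/
  E : List T
  /-- one end -/
  src : T → Λ
  /-- the other end -/
  dst : T → Λ
  /-- the length -/
  len : T → ℕ

variable {Λ T : Type}

/-- The problem for multigraphs. -/
def MSol (g : MG Λ T) (s t : Λ) (k l : ℕ) : Prop :=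
  ∃ D : Finset T, D.card ≤ k ∧ ∃ φ : Λ → ℤ, (l : ℤ) ≤ φ t - φ s ∧
    ∀ e ∈ g.E, e ∉ D → |φ (g.dst e) - φ (g.src e)| ≤ g.len e

/-- The `i`-th point of the subdivided edge `e`. -/
def pt (g : MG Λ T) (e : T) (i : ℕ) : Λ ⊕ (T × ℕ) :=
  if i = 0 then Sum.inl (g.src e) else if i < g.len e then Sum.inr (e, i) else Sum.inl (g.dst e)

/-- The subdivided graph. -/
def U (g : MG Λ T) : SimpleGraph (Λ ⊕ (T × ℕ)) :=
  SimpleGraph.fromRel fun x y => ∃ e ∈ g.E, ∃ i < g.len e, x = pt g e i ∧ y = pt g e (i + 1)

/-- Edges of length one are determined by their ends. -/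
def Simple1 (g : MG Λ T) : Prop := ∀ e ∈ g.E, ∀ e' ∈ g.E, g.len e = 1 → g.len e' = 1 →
  s(g.src e, g.dst e) = s(g.src e', g.dst e') → e = e'

theorem pt_inr {g : MG Λ T} {e : T} {i : ℕ} {x : T × ℕ} (h : pt g e i = Sum.inr x) : x.1 = e := by
  unfold pt at h
  split_ifs at h
  · simp only [Sum.inr.injEq] at h
    rw [← h]

theorem exists_inr {g : MG Λ T} {e : T} {i : ℕ} (hi : i < g.len e) (h : g.len e ≠ 1) :
    (∃ j, pt g e i = Sum.inr (e, j)) ∨ (∃ j, pt g e (i + 1) = Sum.inr (e, j)) := by
  by_cases h0 : i = 0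
  · subst h0
    right
    exact ⟨1, by unfold pt; rw [if_neg (by omega), if_pos (by omega)]⟩
  · left
    exact ⟨i, by unfold pt; rw [if_neg h0, if_pos hi]⟩

theorem unique_edge {g : MG Λ T} (h1 : Simple1 g) {e e' : T} (he : e ∈ g.E) (he' : e' ∈ g.E)
    {i i' : ℕ} (hi : i < g.len e) (hi' : i' < g.len e')
    (h : s(pt g e i, pt g e (i + 1)) = s(pt g e' i', pt g e' (i' + 1))) : e = e' := by
  have key : ∀ {a b : T} {i j : ℕ}, i < g.len a → j < g.len b → g.len a ≠ 1 →
      s(pt g a i, pt g a (i + 1)) = s(pt g b j, pt g b (j + 1)) → a = b := by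
    intro a b i j hi hj hne h
    rw [Sym2.eq_iff] at h
    rcases exists_inr hi hne with ⟨m, hm⟩ | ⟨m, hm⟩
    · rcases h with ⟨h, -⟩ | ⟨h, -⟩
      · rw [hm] at h; exact pt_inr h.symm
      · rw [hm] at h; exact pt_inr h.symm
    · rcases h with ⟨-, h⟩ | ⟨-, h⟩
      · rw [hm] at h; exact pt_inr h.symm
      · rw [hm] at h; exact pt_inr h.symm
  by_cases ha : g.len e = 1
  · by_cases hb : g.len e' = 1
    · refine h1 e he e' he' ha hb ?_
      have ei : i = 0 := by omega
      have ei' : i' = 0 := by omega
      subst ei ei'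
      have p0 : ∀ a, pt g a 0 = Sum.inl (g.src a) := fun a => by simp [pt]
      have p1 : ∀ a, g.len a = 1 → pt g a (0 + 1) = Sum.inl (g.dst a) := fun a ha => by
        simp [pt, ha]
      rw [p0, p0, p1 e ha, p1 e' hb] at h
      have := congrArg (Sym2.map (Sum.elim (fun x : Λ => x) (fun _ => g.src e))) h
      simpa using this
    · exact (key hi' hi hb h.symm).symm
  · exact key hi hi' ha h

theorem unit_iff {g : MG Λ T} (h1 : Simple1 g) (hpos : ∀ e ∈ g.E, 1 ≤ g.len e) (s t : Λ)
    (k l : ℕ) :
    Sol (U g) (fun _ _ => 1) (Sum.inl s) (Sum.inl t) k l ↔ MSol g s t k l := by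
  classical
  constructor
  · rintro ⟨S, hS, Φ, h2, h3⟩
    let D : Finset T := g.E.toFinset.filter fun e => ∃ i < g.len e,
      s(pt g e i, pt g e (i + 1)) ∈ S
    have hD : ∀ e ∈ D, ∃ i < g.len e, s(pt g e i, pt g e (i + 1)) ∈ S := fun e he =>
      (Finset.mem_filter.1 he).2
    refine ⟨D, le_trans ?_ hS, fun x => Φ (Sum.inl x), h2, ?_⟩
    · refine Finset.card_le_card_of_injOn (fun e => if h : ∃ i < g.len e,
        s(pt g e i, pt g e (i + 1)) ∈ S then s(pt g e h.choose, pt g e (h.choose + 1))
          else s(Sum.inl s, Sum.inl s)) ?_ ?_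
      · intro e he
        have h := hD e he
        simp only [dif_pos h]
        exact h.choose_spec.2
      · intro e he e' he' hee
        have h := hD e he
        have h' := hD e' he'
        simp only [dif_pos h, dif_pos h'] at hee
        exact unique_edge h1 (List.mem_toFinset.1 (Finset.mem_filter.1 he).1)
          (List.mem_toFinset.1 (Finset.mem_filter.1 he').1) h.choose_spec.1 h'.choose_spec.1 hee
    · intro e he hn
      have hn' : ∀ i < g.len e, s(pt g e i, pt g e (i + 1)) ∉ S := by
        intro i hi h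
        exact hn (Finset.mem_filter.2 ⟨List.mem_toFinset.2 he, i, hi, h⟩)
      have step : ∀ i < g.len e, |Φ (pt g e (i + 1)) - Φ (pt g e i)| ≤ 1 := by
        intro i hi
        by_cases hne : pt g e i = pt g e (i + 1)
        · rw [hne]; simp
        · have a1 : (U g).Adj (pt g e i) (pt g e (i + 1)) :=
            (SimpleGraph.fromRel_adj _ _ _).2 ⟨hne, Or.inl ⟨e, he, i, hi, rfl, rfl⟩⟩
          have b1 := h3 _ _ a1 (hn' i hi)
          have b2 := h3 _ _ a1.symm (by rw [Sym2.eq_swap]; exact hn' i hi)
          push_cast at b1 b2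
          rw [abs_le]
          constructor <;> omega
      have tel : ∀ i ≤ g.len e, |Φ (pt g e i) - Φ (pt g e 0)| ≤ i := by
        intro i
        induction i with
        | zero => intro _; simp
        | succ i ih =>
          intro hi
          have c1 := ih (by omega)
          have c2 := step i (by omega)
          rw [abs_le] at c1 c2 ⊢
          push_cast
          constructor <;> omega
      have := tel _ le_rfl
      have p0 : pt g e 0 = Sum.inl (g.src e) := by simp [pt]
      have p1 : pt g e (g.len e) = Sum.inl (g.dst e) := by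
        have := hpos e he
        simp [pt, show g.len e ≠ 0 by omega]
      rw [p0, p1] at this
      exact this
  · rintro ⟨D, hD, φ, h2, h3⟩
    let hv : T → ℕ → ℤ := fun e i => if e ∈ D then (if i = 0 then φ (g.src e) else φ (g.dst e)) else
      max (φ (g.src e) - i) (min (φ (g.src e) + i) (φ (g.dst e)))
    let Φ : Λ ⊕ (T × ℕ) → ℤ := fun x => Sum.elim φ (fun y => hv y.1 y.2) x
    have hΦ : ∀ e ∈ g.E, ∀ i ≤ g.len e, Φ (pt g e i) = hv e i := by
      intro e he i hi
      have hp := hpos e he
      by_cases h0 : i = 0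
      · subst h0
        have : pt g e 0 = Sum.inl (g.src e) := by simp [pt]
        rw [this]
        simp only [Φ, hv, Sum.elim_inl]
        split_ifs
        · rfl
        · push_cast; omega
      · by_cases hlt : i < g.len e
        · have : pt g e i = Sum.inr (e, i) := by simp [pt, h0, hlt]
          rw [this]
          rfl
        · have hil : i = g.len e := by omega
          have : pt g e i = Sum.inl (g.dst e) := by simp [pt, h0, hlt]
          rw [this]
          simp only [Φ, hv, Sum.elim_inl]
          split_ifs with hd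
          · rfl
          · have := h3 e he hd
            rw [abs_le] at this
            rw [hil]
            omega
    refine ⟨D.image fun e => s(pt g e 0, pt g e 1), Finset.card_image_le.trans hD, Φ, h2, ?_⟩
    have main : ∀ e ∈ g.E, ∀ i < g.len e, s(pt g e i, pt g e (i + 1)) ∉
        D.image (fun e => s(pt g e 0, pt g e 1)) →
        |Φ (pt g e (i + 1)) - Φ (pt g e i)| ≤ 1 := by
      intro e he i hi hn
      rw [hΦ e he i hi.le, hΦ e he (i + 1) hi, abs_le]
      simp only [hv]
      by_cases hd : e ∈ D
      · have h0 : i ≠ 0 := by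
          rintro rfl
          exact hn (Finset.mem_image.2 ⟨e, hd, rfl⟩)
        simp [hd, h0]
      · simp only [hd, if_false]
        push_cast
        constructor <;> omega
    intro x y hxy hn
    obtain ⟨-, ⟨e, he, i, hi, rfl, rfl⟩ | ⟨e, he, i, hi, rfl, rfl⟩⟩ :=
      (SimpleGraph.fromRel_adj _ _ _).1 hxy
    · have := (abs_le.1 (main e he i hi hn)).2
      exact_mod_cast this
    · have := (abs_le.1 (main e he i hi (by rw [Sym2.eq_swap]; exact hn))).1
      push_cast
      omega

end Pool.Agent.Q322.SPM
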